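import Pool.Agent.Helper68.LM.Geo

/-!
# Project LM2 (MP_cb927e_an): the sharp theorem for domains with finitely many flat points

Part 1: analysis on `ℝ` and `ℝ × ℝ` (dyadic martingales in the second variable, averages in the first
variable). Every statement `St...` is a `Prop` which is proved in a module of its own.
-/

set_option autoImplicit false

open MeasureTheory Set Filter Topology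
open scoped ENNReal RealInnerProductSpace

namespace Pool.Agent.Helper68.LM2

open Pool.Agent.Helper68.LM

/-- bounded measurable functions with bounded support on the line -/
def B1 (h : ℝ → ℝ) : Prop :=
  Measurable h ∧ ∃ K : ℝ, (∀ x, |h x| ≤ K) ∧ ∀ x, K < |x| → h x = 0

/-- bounded measurable functions with bounded support on `ℝ × ℝ` -/
def BR (g : ℝ × ℝ → ℝ) : Prop :=
  Measurable g ∧ ∃ K : ℝ, (∀ z, |g z| ≤ K) ∧ ∀ z, K < ‖z‖ → g z = 0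

/-- the dyadic interval `[2^m i, 2^m (i+1))` containing `b` -/
def cell (m : ℤ) (b : ℝ) : Set ℝ := {y | ⌊y / (2 : ℝ) ^ m⌋ = ⌊b / (2 : ℝ) ^ m⌋}

/-- conditional expectation with respect to the dyadic intervals of length `2^m` -/
noncomputable def E1 (m : ℤ) (h : ℝ → ℝ) (b : ℝ) : ℝ := ((2 : ℝ) ^ m)⁻¹ * ∫ y in cell m b, h y

/-- martingale difference -/
noncomputable def D1 (m : ℤ) (h : ℝ → ℝ) (b : ℝ) : ℝ := E1 m h b - E1 (m + 1) h b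

/-- conditional expectation in the second variable -/
noncomputable def E2 (m : ℤ) (g : ℝ × ℝ → ℝ) (z : ℝ × ℝ) : ℝ := E1 m (fun y => g (z.1, y)) z.2

/-- martingale difference in the second variable -/
noncomputable def D2 (m : ℤ) (g : ℝ × ℝ → ℝ) (z : ℝ × ℝ) : ℝ := E2 m g z - E2 (m + 1) g z

/-- average in the first variable -/
noncomputable def Rh (ρ : Measure ℝ) (k : ℤ) (g : ℝ × ℝ → ℝ) (z : ℝ × ℝ) : ℝ :=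
  ∫ s, g (z.1 - (2 : ℝ) ^ k * s, z.2) ∂ρ

/-- the maximal function on the line, dyadic radii -/
noncomputable def Mx (h : ℝ → ℝ≥0∞) (x : ℝ) : ℝ≥0∞ :=
  ⨆ i : ℤ, ENNReal.ofReal ((2 : ℝ) ^ (-i)) *
    ∫⁻ s in Icc (-((2 : ℝ) ^ i)) ((2 : ℝ) ^ i), h (x + s)

/-- the maximal function in the first variable -/
noncomputable def M1 (g : ℝ × ℝ → ℝ≥0∞) (z : ℝ × ℝ) : ℝ≥0∞ := Mx (fun a => g (a, z.2)) z.1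

/-- the maximal function in the second variable -/
noncomputable def M2 (g : ℝ × ℝ → ℝ≥0∞) (z : ℝ × ℝ) : ℝ≥0∞ := Mx (fun b => g (z.1, b)) z.2

/-- The parameters: a strictly decreasing sequence in `(0,1]` with `τ n ≥ 2^(-(m₀+n))`. -/
def Seq (τ : ℕ → ℝ) (m₀ : ℕ) : Prop :=
  StrictAnti τ ∧ (∀ n, 0 < τ n) ∧ τ 0 ≤ 1 ∧ ∀ n, (2⁻¹ : ℝ) ^ (m₀ + n) ≤ τ n

/-- the distribution of `t + 2^(-(m₀+n)) α`, `t` in `[τ (n+1), τ n]`, `α` in `[-1,1]` -/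
noncomputable def rho (τ : ℕ → ℝ) (m₀ n : ℕ) : Measure ℝ :=
  ((volume.restrict (Icc (τ (n + 1)) (τ n))).prod (volume.restrict (Icc (-1 : ℝ) 1))).map
    (fun w : ℝ × ℝ => w.1 + (2⁻¹ : ℝ) ^ (m₀ + n) * w.2)

/-- The low frequency operator number `n`. -/
noncomputable def Vn (τ : ℕ → ℝ) (m₀ : ℕ) (k : ℤ) (n : ℕ) (g : ℝ × ℝ → ℝ) : ℝ × ℝ → ℝ :=
  Rh (rho τ m₀ n) k (E2 (k - (m₀ : ℤ) - (n : ℤ) + 2) g)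

/-- The centred low frequency operator number `n`. -/
noncomputable def Vc (τ : ℕ → ℝ) (m₀ : ℕ) (k : ℤ) (n : ℕ) (g : ℝ × ℝ → ℝ) : ℝ × ℝ → ℝ :=
  Rh (rho τ m₀ n) k
    (fun z => E2 (k - (m₀ : ℤ) - (n : ℤ) + 2) g z - E2 (k - (m₀ : ℤ) + 2) g z)

/-- twice the mass of the indices `n ≥ j` in `S` -/
noncomputable def wt (τ : ℕ → ℝ) (S : Finset ℕ) (j : ℕ) : ℝ :=
  ∑ n ∈ S.filter (fun n => j ≤ n), 2 * (τ n - τ (n + 1))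

/-- Level sets: `g` where `2^(r-1) lam < g ≤ 2^r lam` (for `r = 0`: where `g ≤ lam`), else `0`. -/
noncomputable def Lv (g : ℝ × ℝ → ℝ) (lam : ℝ) (r : ℕ) (z : ℝ × ℝ) : ℝ :=
  open Classical in
  if g z ≤ 2 ^ r * lam ∧ (r ≠ 0 → 2 ^ r * lam / 2 < g z) then g z else 0

/-- far arcs: `τ n > 2^(-r)` -/
noncomputable def farS (τ : ℕ → ℝ) (Nm r : ℕ) : Finset ℕ :=
  open Classical in (Finset.range Nm).filter (fun n => (2⁻¹ : ℝ) ^ r < τ n)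

/-- near arcs: `τ n ≤ 2^(-r)` -/
noncomputable def nearS (τ : ℕ → ℝ) (Nm r : ℕ) : Finset ℕ :=
  open Classical in (Finset.range Nm).filter (fun n => τ n ≤ (2⁻¹ : ℝ) ^ r)

/-- dyadic squares -/
def sqr (q i j : ℤ) : Set (ℝ × ℝ) :=
  {z | ⌊z.1 / (2 : ℝ) ^ q⌋ = i ∧ ⌊z.2 / (2 : ℝ) ^ q⌋ = j}

/-! ## Basic facts -/

/-- EA (about 200 lines), the line.  `cell m b` is `Ico (2^m i) (2^m (i+1))`, `i = ⌊b/2^m⌋`, of length `2^m`; `c ∈ cell m b`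
iff `cell m c = cell m b`; for `m ≤ m'` `cell m b ⊆ cell m' b` (`⌊⌊x⌋/2^j⌋ = ⌊x/2^j⌋`).  `E1 m h` takes the constant value
`v_i = 2^(-m) ∫_{[2^m i, 2^m(i+1))} h` on the cell number `i`, finitely many `v_i` are not zero, so all functions are finite
combinations of indicators of cells: measurable, bounded by `K`, bounded support.  Self-adjointness:
`∫ (E1 m h) w = ∑_i v_i(h) ∫_{cell i} w = ∑_i 2^m v_i(h) v_i(w)` (sum over the finitely many cells that meet the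
supports).  Tower: `∫_{cell m' b} E1 m h = ∫_{cell m' b} h` (a cell of level `m'` is a finite union of cells of level
`m ≤ m'`).  Hypotheses: none. -/
def StEA : Prop :=
  (∀ m b c, c ∈ cell m b → cell m c = cell m b) ∧
  (∀ m b, MeasurableSet (cell m b) ∧ b ∈ cell m b ∧ volume (cell m b) = ENNReal.ofReal ((2 : ℝ) ^ m) ∧
    cell m b ⊆ Icc (b - (2 : ℝ) ^ m) (b + (2 : ℝ) ^ m)) ∧
  (∀ m m' b, m ≤ m' → cell m b ⊆ cell m' b) ∧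
  (∀ m h, B1 h → B1 (E1 m h)) ∧
  (∀ m h b c, c ∈ cell m b → E1 m h c = E1 m h b) ∧
  (∀ m h w b, B1 h → B1 w → E1 m (fun y => h y + w y) b = E1 m h b + E1 m w b) ∧
  (∀ m (h : ℝ → ℝ) (c b : ℝ), E1 m (fun y => c * h y) b = c * E1 m h b) ∧
  (∀ m h w b, B1 h → B1 w → (∀ y, h y ≤ w y) → E1 m h b ≤ E1 m w b) ∧
  (∀ m h b, B1 h → |E1 m h b| ≤ E1 m (fun y => |h y|) b) ∧
  (∀ m h K b, B1 h → (∀ y, |h y| ≤ K) → |E1 m h b| ≤ K) ∧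
  (∀ m m' h b, B1 h → m ≤ m' → E1 m' (E1 m h) b = E1 m' h b ∧ E1 m (E1 m' h) b = E1 m' h b) ∧
  (∀ m h w, B1 h → B1 w → ∫ y, E1 m h y * w y = ∫ y, h y * E1 m w y) ∧
  (∀ m h w b, B1 h → B1 w → (∀ x, ∀ y ∈ cell m x, w y = w x) →
    E1 m w b = w b ∧ E1 m (fun y => w y * h y) b = w b * E1 m h b) ∧
  (∀ m h, B1 h → ∫⁻ y, ‖E1 m h y‖ₑ ≤ ∫⁻ y, ‖h y‖ₑ)

/-- EB (about 120 lines), `ℝ × ℝ`.  Measurability of `E2 m g`: `E2 m g (a,b) = 2^(-m) ∫ g(a,y) 1_{⌊y/2^m⌋ = ⌊b/2^m⌋} dy`, a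
parametric integral of a jointly measurable function (`StronglyMeasurable.integral_prod_right`).  The rest fibrewise from
EA and Tonelli (`lintegral_prod`).  Hypotheses: hEA. -/
def StEB : Prop :=
  (∀ g, BR g → (∀ a, B1 (fun y => g (a, y))) ∧ Integrable g) ∧
  (∀ g h, BR g → BR h → BR (fun z => g z + h z) ∧ BR (fun z => g z - h z)) ∧
  (∀ (g : ℝ × ℝ → ℝ) (S : Set (ℝ × ℝ)), BR g → MeasurableSet S → BR (S.indicator g)) ∧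
  (∀ m g, BR g → BR (E2 m g) ∧ BR (D2 m g)) ∧
  (∀ m g K z, BR g → (∀ w, |g w| ≤ K) → |E2 m g z| ≤ K) ∧
  (∀ m g z, BR g → (∀ w, 0 ≤ g w) → 0 ≤ E2 m g z) ∧
  (∀ m g h z, BR g → BR h → E2 m (fun w => g w + h w) z = E2 m g z + E2 m h z ∧
    E2 m (fun w => g w - h w) z = E2 m g z - E2 m h z) ∧
  (∀ m g, BR g → ∫⁻ z, ‖E2 m g z‖ₑ ≤ ∫⁻ z, ‖g z‖ₑ) ∧
  (∀ m g z, BR g → ‖E2 m g z‖ₑ ≤ M2 (fun w => ‖g w‖ₑ) z)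

/-- RHO (about 250 lines).  Write `λ = τ n - τ (n+1)`, `η = 2^(-(m₀+n)) ≤ τ n`.  `∫ f dρ = ∫_{t ∈ J} ∫_{α ∈ [-1,1]} f(t + η α) dα dt`
(`integral_map`, `lintegral_map`, Tonelli), total mass `2λ`, `|t + ηα| ≤ 2`.  `‖Rh ρ k g‖_p^p ≤ (2λ)^p ‖g‖_p^p`: Jensen/Hölder
`(∫ |g| dρ)^p ≤ (2λ)^(p-1) ∫ |g|^p dρ` and Tonelli, translation invariance.  Commutation with `E2`: Fubini (bounded
functions, finite measures).  Sixth item: `∫_{α ∈ [-1,1]} w(x + 2^k t + 2^k η α) dα = 2^(-i) ∫_{|s| ≤ 2^i} w(x + 2^k t + s) ds`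
with `2^i = 2^k η`, at most `M1 w` at the point `x + 2^k t`; the sum over `n ≥ j` of `∫_{J_n} (M1 w)(x + 2^k t) dt` is at most
`∫_0^{τ j} (M1 w)(x + 2^k t) dt = 2^(-k) ∫_0^{2^k τ j} (M1 w)(x + s) ds ≤ 2 τ j M1 (M1 w)` (`2^i'` with
`2^k τ j ≤ 2^i' < 2·2^k τ j`); the same for `x - 2^k s`.  Hypotheses: hEA, hEB. -/
def StRHO : Prop :=
  ∀ (τ : ℕ → ℝ) (m₀ : ℕ), Seq τ m₀ →
    (∀ n, rho τ m₀ n univ = ENNReal.ofReal (2 * (τ n - τ (n + 1)))) ∧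
    (∀ n, rho τ m₀ n (Icc (-2 : ℝ) 2)ᶜ = 0) ∧
    (∀ n k g, BR g → BR (Rh (rho τ m₀ n) k g)) ∧
    (∀ n k (p : ℝ) g, 1 ≤ p → BR g → ∫⁻ z, ‖Rh (rho τ m₀ n) k g z‖ₑ ^ p ≤
      ENNReal.ofReal ((2 * (τ n - τ (n + 1))) ^ p) * ∫⁻ z, ‖g z‖ₑ ^ p) ∧
    (∀ n k m g z, BR g → E2 m (Rh (rho τ m₀ n) k g) z = Rh (rho τ m₀ n) k (E2 m g) z) ∧
    (∀ (k : ℤ) (j N : ℕ) (w : ℝ × ℝ → ℝ≥0∞) (z : ℝ × ℝ), Measurable w →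
      ∑ n ∈ Finset.Ico j N, ∫⁻ s, w (z.1 + (2 : ℝ) ^ k * s, z.2) ∂(rho τ m₀ n) ≤
        ENNReal.ofReal (4 * τ j) * M1 (M1 w) z) ∧
    (∀ n k g h z, BR g → BR h → Rh (rho τ m₀ n) k (fun w => g w + h w) z =
      Rh (rho τ m₀ n) k g z + Rh (rho τ m₀ n) k h z) ∧
    (∀ n k g, BR g → BR (Vn τ m₀ k n g) ∧ BR (Vc τ m₀ k n g)) ∧
    (∀ n k g h z, BR g → BR h →
      Vc τ m₀ k n (fun w => g w + h w) z = Vc τ m₀ k n g z + Vc τ m₀ k n h z ∧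
      Vc τ m₀ k n (fun w => g w - h w) z = Vc τ m₀ k n g z - Vc τ m₀ k n h z) ∧
    (∀ n k g z, BR g → Vn τ m₀ k n g z = Vc τ m₀ k n g z +
      Rh (rho τ m₀ n) k (E2 (k - (m₀ : ℤ) + 2) g) z)

/-- ORT (about 200 lines).  On the line, for `B1` functions: `∫ (D1 m f)(D1 m' w) = 0` for `m ≠ m'` (self-adjointness and
tower), so `∫ (∑ D1 (m-j) f_j)² = ∑ ∫ (D1 (m-j) f_j)²`.  Bessel: with `f_j = h`, `s = ∑_{j<J} D1 (m-j) h = E1 (m-J+1) h - E1 (m+1) h`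
satisfies `∫ s² = ∫ s h` (self-adjoint projection), so `∫ s² ≤ ∫ h²`, and finite sums over `ℤ` exhaust.  Integrate over the
first variable (Tonelli).  Hypotheses: hEA, hEB. -/
def StORT : Prop :=
  (∀ g, BR g → ∑' m : ℤ, ∫⁻ z, ‖D2 m g z‖ₑ ^ 2 ≤ ∫⁻ z, ‖g z‖ₑ ^ 2) ∧
  (∀ h, B1 h → ∑' m : ℤ, ∫⁻ b, ‖D1 m h b‖ₑ ^ 2 ≤ ∫⁻ b, ‖h b‖ₑ ^ 2) ∧
  (∀ (m : ℤ) (J : ℕ) (X : ℕ → ℝ × ℝ → ℝ), (∀ j, BR (X j)) →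
    ∫⁻ z, ‖∑ j ∈ Finset.range J, D2 (m - (j : ℤ)) (X j) z‖ₑ ^ 2 ≤
      ∑ j ∈ Finset.range J, ∫⁻ z, ‖D2 (m - (j : ℤ)) (X j) z‖ₑ ^ 2)

/-- LL (about 200 lines), the weighted `L²` estimate.  Put `m = k - m₀ + 2`.  `Vc k n h = ∑_{j=1}^n D2 (m-j) (Rh ρ_n k h)`
(telescoping, commutation), so the function is `∑_{j ≥ 1} D2 (m-j) X_j`, `X_j = ∑_r ∑_{n ∈ S_r, n ≥ j} Rh ρ_n k h_r`.  ORT and
`‖D2 (m-j) X_j‖_2 ≤ ∑_r ∑_n ‖Rh ρ_n k (D2 (m-j) h_r)‖_2 ≤ ∑_r w_{r,j} ‖D2 (m-j) h_r‖_2`, Cauchy-Schwarz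
`(∑_r w x_r)² ≤ (∑_r w ω)(∑_r w ω⁻¹ x_r²)`, and `∑_k ‖D2 (k - m₀ + 2 - j) h_r‖_2² ≤ ‖h_r‖_2²`.
Hypotheses: hEB, hRHO, hORT. -/
def StLL : Prop :=
  ∀ (τ : ℕ → ℝ) (m₀ : ℕ), Seq τ m₀ → ∀ (Nm R : ℕ) (S : ℕ → Finset ℕ) (h : ℕ → ℝ × ℝ → ℝ)
    (ω : ℕ → ℕ → ℝ), (∀ r, S r ⊆ Finset.range Nm) → (∀ r, BR (h r)) → (∀ r j, 0 < ω r j) →
    ∑' k : ℤ, ∫⁻ z, ‖∑ r ∈ Finset.range R, ∑ n ∈ S r, Vc τ m₀ k n (h r) z‖ₑ ^ 2 ≤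
      ENNReal.ofReal (∑ j ∈ Finset.range Nm, (∑ r ∈ Finset.range R, wt τ (S r) j * ω r j) *
        ∑ r ∈ Finset.range R, wt τ (S r) j * (ω r j)⁻¹ * ∫ z, h r z ^ 2)

/-! ## Interpolation and maximal functions -/

/-- LCG (about 60 lines): the layer cake formula and Marcinkiewicz, for a general space.  Copy
`Pool/Agent/Helper42/LM/M_LC.lean` and `M_MZ1.lean` (`hLC`, `hMZ1` there are for the plane; nothing special is used).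
Hypotheses: none. -/
def StLCG : Prop :=
  (∀ (α : Type) [MeasurableSpace α] (μ : Measure α) [SFinite μ] (p : ℝ), 0 < p →
    ∀ F : α → ℝ≥0∞, Measurable F → ∫⁻ x, F x ^ p ∂μ =
      ∫⁻ lam in Ioi (0 : ℝ), ENNReal.ofReal (p * lam ^ (p - 1)) *
        μ {x | ENNReal.ofReal lam < F x}) ∧
  ∀ p : ℝ, 1 < p → ∃ C : ℝ, 0 < C ∧ ∀ (α : Type) [MeasurableSpace α] (μ : Measure α) [SFinite μ]
    (g F : α → ℝ≥0∞) (s K : ℝ), Measurable g → Measurable F → 0 < s → 0 ≤ K →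
    (∀ lam : ℝ, 0 < lam → μ {x | ENNReal.ofReal lam < F x} ≤
      ENNReal.ofReal (K / lam) * ∫⁻ x in {x | ENNReal.ofReal (s * lam) < g x}, g x ∂μ) →
    ∫⁻ x, F x ^ p ∂μ ≤ ENNReal.ofReal (C * (K * s ^ (1 - p))) * ∫⁻ x, g x ^ p ∂μ

/-- HW (about 150 lines), weak type.  We may assume `∫⁻ h` finite and not zero.  If `lam < Mx h x` there is `i` with
`lam 2^i < ∫_{|s| ≤ 2^i} h(x+s) ds = ∫_{closedBall x (2^i)} h ≤ ∫⁻ h`: bounded radii.  Vitali's covering theorem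
(`Vitali.exists_disjoint_subfamily_covering_enlargement_closedBall`, factor `5`), countable disjoint subfamily;
`vol (closedBall x (5·2^i)) = 10·2^i ≤ (10/lam) ∫_{closedBall x (2^i)} h`.  Compare `Pool/Agent/Helper27/LM/M_HLW.lean`.
Hypotheses: none. -/
def StHW : Prop :=
  ∀ h : ℝ → ℝ≥0∞, Measurable h → ∀ lam : ℝ, 0 < lam →
    volume {x | ENNReal.ofReal lam < Mx h x} ≤ ENNReal.ofReal (10 / lam) * ∫⁻ y, h y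

/-- HLA (about 150 lines), strong type.  On the line: measurability (countable supremum; `(x,s) ↦ h(x+s)` jointly
measurable); `h ≤ h 1_{h > lam/4} + lam/4`, `Mx (lam/4) ≤ lam/2`, so `{lam < Mx h} ⊆ {lam/2 < Mx (h 1_{h > lam/4})}` has measure
at most `(20/lam) ∫_{h > lam/4} h`, and LCG with `s = 1/4`, `K = 20`.  In the plane: joint measurability of `M1 g`, `M2 g`
in the same way, Tonelli.  Hypotheses: hLCG, hHW. -/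
def StHLA : Prop :=
  ∀ r : ℝ, 1 < r → ∃ C : ℝ, 0 < C ∧
    (∀ h : ℝ → ℝ≥0∞, Measurable h → Measurable (Mx h) ∧
      ∫⁻ x, Mx h x ^ r ≤ ENNReal.ofReal C * ∫⁻ x, h x ^ r) ∧
    (∀ g : ℝ × ℝ → ℝ≥0∞, Measurable g → Measurable (M1 g) ∧ Measurable (M2 g) ∧
      ∫⁻ z, M1 g z ^ r ≤ ENNReal.ofReal C * ∫⁻ z, g z ^ r ∧
      ∫⁻ z, M2 g z ^ r ≤ ENNReal.ofReal C * ∫⁻ z, g z ^ r)

/-! ## `1 < p < 2` -/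

/-- CZS (about 250 lines), Calderon-Zygmund squares.  For `q` large `4^(-q) ∫ F ≤ lam`.  Select the maximal dyadic squares
with average `> lam`; they are disjoint, their parents have average `≤ lam`, so their averages are `≤ 4 lam`.  Off their
union all dyadic averages are `≤ lam`, and by differentiation `F ≤ lam` a.e. (the supremum norm of `ℝ × ℝ`:
`IsUnifLocDoublingMeasure.ae_tendsto_average`, or transport `Pool.Agent.Helper27.LM.hLD`).  See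
`Pool/Agent/Helper68/LM/M_CZ.lean` (structure `Sel`).  Hypotheses: none. -/
def StCZS : Prop :=
  ∀ F : ℝ × ℝ → ℝ, BR F → (∀ z, 0 ≤ F z) → ∀ lam : ℝ, 0 < lam →
    ∃ I : Set (ℤ × ℤ × ℤ), I.PairwiseDisjoint (fun s => sqr s.1 s.2.1 s.2.2) ∧
      (∀ s ∈ I, lam * (4 : ℝ) ^ s.1 < ∫ z in sqr s.1 s.2.1 s.2.2, F z ∧
        ∫ z in sqr s.1 s.2.1 s.2.2, F z ≤ 4 * lam * (4 : ℝ) ^ s.1) ∧
      ∀ᵐ z, (∀ s ∈ I, z ∉ sqr s.1 s.2.1 s.2.2) → F z ≤ lam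

/-- BAD (about 250 lines).  Let `λ = τ n - τ (n+1)`, `η = 2^(-(m₀+n))`, `m = k - m₀ - n + 2`.  (a) `m ≤ q + 2` and
`k - m₀ + 2 ≤ q + 2`: the cells have length at most `4·2^q`, and `|2^k s| ≤ 2·2^q`.  (b) For a level `m'` with `q ≤ m'` the cell of
level `m'` contains the side of the square, `E2 m' b (a,y) = 2^(-m') e(a) 1_{cell}(y)`, `e(a) = ∫ b(a,y) dy`, `∫ e = 0`, `e` lives on an
interval of length `2^q`, so with the primitive `Φ` (`‖Φ‖_1 ≤ 2^q ‖e‖_1`)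
`∫_{J} e(x - 2^k t) dt = 2^(-k) (Φ(x - 2^k τ(n+1)) - Φ(x - 2^k τ n))` and `‖Rh ρ k (E2 m' b)‖_1 ≤ min (2λ) (4·2^(q-k)) ‖b‖_1`;
for `q > m'` it is at most `2λ ‖b‖_1`.  Level `m`: `q > m` happens for at most `m₀+n` values `k > q`; the rest gives
`∑ 4·2^(q-k) ≤ 32 η`.  Level `k - m₀ + 2`: the terms with `k - q ≤ m₀ + n` give `2λ(m₀+n)`, the others `4η`.
Hypotheses: hEA, hEB, hRHO. -/
def StBAD : Prop :=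
  ∀ (τ : ℕ → ℝ) (m₀ : ℕ), Seq τ m₀ → ∀ (n : ℕ) (q i j : ℤ) (b : ℝ × ℝ → ℝ), BR b →
    (∀ z, z ∉ sqr q i j → b z = 0) → ∫ z, b z = 0 →
    (∀ k : ℤ, k ≤ q → ∀ z : ℝ × ℝ, Vc τ m₀ k n b z ≠ 0 →
      |z.1 - (2 : ℝ) ^ q * i| ≤ 8 * (2 : ℝ) ^ q ∧ |z.2 - (2 : ℝ) ^ q * j| ≤ 8 * (2 : ℝ) ^ q) ∧
    ∑' k : ℤ, (if q < k then ∫⁻ z, ‖Vc τ m₀ k n b z‖ₑ else 0) ≤
      ENNReal.ofReal (40 * ((m₀ + n) * (τ n - τ (n + 1)) + (2⁻¹ : ℝ) ^ (m₀ + n))) * ∫⁻ z, ‖b z‖ₑ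

/-- FAR (about 350 lines).  `F = ∑_{r ≥ 1} Lv r = g 1_{g > lam}`, squares `Q` from CZS at height `lam`; `F = 0` a.e. off their union.
`G_r` = average of `Lv r` over `Q` on `Q`, `0` off (`Lv 0` does not matter: `farS 0` is empty as `τ ≤ 1`), `b_{r,Q} = (Lv r - G_r) 1_Q`;
`∫ |b_{r,Q}| ≤ 2 ∫_Q Lv r`, `0 ≤ G_r ≤ 4 lam`, `∫ G_r ≤ ∫ Lv r` (the squares have bounded side, so everything is `BR`).
Exceptional set: `Q*` = square of centre the corner of `Q` and half side `(8 + ϖ) 2^q`, `∑ |Q*| ≤ C ∑ |Q| ≤ C lam⁻¹ ∫ F`.  For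
`z ∉ Q*` and `k ≤ q` `Vc k n b_{r,Q} (z - 2^k P) = 0` by BAD (a).  So
`∫_{off Q*} sup_k |∑_r ∑_n Vc k n (Lv r - G_r)(z - 2^k P)| ≤ ∑_r ∑_{n ∈ far} ∑_Q ∑_{k > q} ‖Vc k n b_{r,Q}‖_1`, BAD (b) (the operators
are continuous in `L¹`, so infinite sums over `Q` are harmless: Fatou along finite sets of squares); Chebyshev.  Good
part: LL with `h_r = G_r`, `ω r j = (2^r τ j)^(-ε)`, Chebyshev with `sup_k ≤ ∑_k`; `wt τ (farS r) j` is `0` unless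
`2^(-r) < τ j`, and at most `2 τ j`; `∑_{r : 2^r τ j > 1} (2^r τ j)^(-ε) ≤ C_ε`; `∫ G_r² ≤ 4 lam ∫ Lv r`.
Hypotheses: hEB, hRHO, hLL, hCZS, hBAD. -/
def StFAR : Prop :=
  ∀ ϖ ε : ℝ, 0 < ϖ → 0 < ε → ∃ C : ℝ, 0 < C ∧ ∀ (τ : ℕ → ℝ) (m₀ : ℕ), Seq τ m₀ →
    ∀ (Nm R : ℕ) (g : ℝ × ℝ → ℝ) (lam : ℝ) (P : ℝ × ℝ), BR g → (∀ z, 0 ≤ g z) → 0 < lam →
      (∀ z, g z ≤ 2 ^ R * lam) → ‖P‖ ≤ ϖ →
      volume {z : ℝ × ℝ | ∃ k : ℤ, 2 * lam < |∑ r ∈ Finset.range (R + 1),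
        ∑ n ∈ farS τ Nm r, Vc τ m₀ k n (Lv g lam r) (z - (2 : ℝ) ^ k • P)|} ≤
      ENNReal.ofReal (C * lam⁻¹) * (∫⁻ z in {z | lam < g z}, ENNReal.ofReal (g z)) +
      ∑ r ∈ Finset.Icc 1 R, ENNReal.ofReal (C * lam⁻¹ *
        ((∑ n ∈ farS τ Nm r, ((m₀ + n) * (τ n - τ (n + 1)) + (2⁻¹ : ℝ) ^ (m₀ + n))) +
          ∑ j ∈ farS τ Nm r, τ j ^ 2 * (2 ^ r * τ j) ^ ε)) *
        ∫⁻ z, ENNReal.ofReal (Lv g lam r z)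

/-- NEAR (about 120 lines).  LL with `h_r = Lv g lam r`, `S_r = nearS r`, `ω r j = (2^r τ j)^ε`; Chebyshev, `sup_k ≤ ∑_k`,
translation invariance; `wt τ (nearS r) j ≤ 2 min (τ j) (2^(-r))`, and `∑_r 2 min (τ j) (2^(-r)) (2^r τ j)^ε ≤ C_ε τ j` as
`0 < ε < 1`.  Hypotheses: hEB, hRHO, hLL. -/
def StNEAR : Prop :=
  ∀ ε : ℝ, 0 < ε → ε < 1 → ∃ C : ℝ, 0 < C ∧ ∀ (τ : ℕ → ℝ) (m₀ : ℕ), Seq τ m₀ →
    ∀ (Nm R : ℕ) (g : ℝ × ℝ → ℝ) (lam : ℝ) (P : ℝ × ℝ), BR g → (∀ z, 0 ≤ g z) → 0 < lam →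
      volume {z : ℝ × ℝ | ∃ k : ℤ, lam < |∑ r ∈ Finset.range (R + 1),
        ∑ n ∈ nearS τ Nm r, Vc τ m₀ k n (Lv g lam r) (z - (2 : ℝ) ^ k • P)|} ≤
      ∑ r ∈ Finset.range (R + 1), ENNReal.ofReal (C * (lam ^ 2)⁻¹ *
        ∑ j ∈ Finset.range Nm, τ j * (min (τ j) ((2⁻¹ : ℝ) ^ r) * (2 ^ r * τ j) ^ (-ε))) *
        ∫⁻ z, ENNReal.ofReal (Lv g lam r z) ^ 2

/-- LI (about 120 lines), Tonelli.  For fixed `z` with `y = g z > 0`: `∫_{lam < y} lam^(p-2) dlam = y^(p-1)/(p-1)`; `Lv g lam r z = y` iff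
`y 2^(-r) ≤ lam < y 2^(1-r)` (`r ≥ 1`), resp. `y ≤ lam` (`r = 0`), else `0`; `∫ lam^(p-2)` over this interval is
`C (y 2^(-r))^(p-1)`, `∫ lam^(p-3)` is `C (y 2^(-r))^(p-2)`, for `r = 0` `∫_{lam ≥ y} lam^(p-3) = y^(p-2)/(2-p)`.
Hypotheses: none. -/
def StLI : Prop :=
  ∀ p : ℝ, 1 < p → p < 2 → ∃ C : ℝ, 0 < C ∧ ∀ g : ℝ × ℝ → ℝ, Measurable g → (∀ z, 0 ≤ g z) →
    (∫⁻ lam in Ioi (0 : ℝ), ENNReal.ofReal (lam ^ (p - 2)) *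
      ∫⁻ z in {z | lam < g z}, ENNReal.ofReal (g z) ≤
        ENNReal.ofReal C * ∫⁻ z, ENNReal.ofReal (g z) ^ p) ∧
    (∀ r : ℕ, 1 ≤ r → ∫⁻ lam in Ioi (0 : ℝ), ENNReal.ofReal (lam ^ (p - 2)) *
      ∫⁻ z, ENNReal.ofReal (Lv g lam r z) ≤
        ENNReal.ofReal (C * (2 : ℝ) ^ (-(r * (p - 1)))) * ∫⁻ z, ENNReal.ofReal (g z) ^ p) ∧
    (∀ r : ℕ, ∫⁻ lam in Ioi (0 : ℝ), ENNReal.ofReal (lam ^ (p - 3)) *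
      ∫⁻ z, ENNReal.ofReal (Lv g lam r z) ^ 2 ≤
        ENNReal.ofReal (C * (2 : ℝ) ^ (r * (2 - p))) * ∫⁻ z, ENNReal.ofReal (g z) ^ p)

/-- WS (about 200 lines), numbers.  `ε = min ((2-p)/2) ((p-1)/2)`.  For `0 < t ≤ 1` all sums over `r` are geometric on both sides of
`2^r = 1/t` (note `0 < ε < 2 - p` and `ε < p - 1`); finite sums up to `R`, constants independent of `R`.  Then exchange the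
finite sums.  First sum: `∑_r ∑_{n ∈ far r} c_n 2^(-r(p-1)) ≤ C ∑_{n < Nm} c_n τ_n^(p-1)` with `c_n = (m₀+n)(τ_n - τ_{n+1}) + 2^(-(m₀+n))`, and
`(x - y) x^(p-1) ≤ x^p - y^p` for `0 ≤ y ≤ x`, Abel summation:
`∑_{n<Nm} (m₀+n)(τ_n^p - τ_{n+1}^p) ≤ m₀ + ∑_{n<Nm} τ_n^p`.  Second sum: `∑_r ∑_{j ∈ far r} τ_j² (2^r τ_j)^ε 2^(-r(p-1)) ≤ C ∑ τ_j^(p+1)`.
Third sum: `∑_r min(τ_j, 2^(-r)) (2^r τ_j)^(-ε) 2^(r(2-p)) ≤ C τ_j^(p-1)`.  Hypotheses: none. -/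
def StWS : Prop :=
  ∀ p : ℝ, 1 < p → p < 2 → ∃ ε C : ℝ, 0 < ε ∧ ε < 1 ∧ 0 < C ∧ ∀ (τ : ℕ → ℝ) (m₀ : ℕ), Seq τ m₀ →
    ∀ Nm R : ℕ,
    ∑ r ∈ Finset.Icc 1 R, ((∑ n ∈ farS τ Nm r,
        ((m₀ + n) * (τ n - τ (n + 1)) + (2⁻¹ : ℝ) ^ (m₀ + n))) +
      ∑ j ∈ farS τ Nm r, τ j ^ 2 * (2 ^ r * τ j) ^ ε) * (2 : ℝ) ^ (-(r * (p - 1))) ≤
        C * (m₀ + 1 + ∑ n ∈ Finset.range Nm, τ n ^ p) ∧
    ∑ r ∈ Finset.range (R + 1), (∑ j ∈ Finset.range Nm,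
      τ j * (min (τ j) ((2⁻¹ : ℝ) ^ r) * (2 ^ r * τ j) ^ (-ε))) * (2 : ℝ) ^ (r * (2 - p)) ≤
        C * ∑ n ∈ Finset.range Nm, τ n ^ p

/-- DA (about 200 lines).  `T z = sup_k |∑_{n<Nm} Vc k n g (z - 2^k P)|`.  For `lam > 0` choose `R` with `g ≤ 2^R lam`; then
`g = ∑_{r ≤ R} Lv r` and `range Nm` is the disjoint union of `farS r` and `nearS r`, so `{3 lam < T}` is contained in the sets of FAR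
and NEAR.  `∫ T^p = ∫ p (3lam)^(p-1) |{3 lam < T}| 3 dlam` (LCG applied to `T/3`), insert FAR, NEAR (finite sums over `r ≤ R(lam)`
are at most sums over all `r`), LI and WS (finite sums).  Constants: `C (m₀ + 2 + ∑ τ_n^p)`.
Hypotheses: hLCG, hEB, hRHO, hFAR, hNEAR, hLI, hWS. -/
def StDA : Prop :=
  ∀ (p ϖ : ℝ) (m₀ : ℕ), 1 < p → p < 2 → 0 < ϖ → ∃ C : ℝ, 0 < C ∧ ∀ τ : ℕ → ℝ, Seq τ m₀ →
    ∀ (Nm : ℕ) (g : ℝ × ℝ → ℝ) (P : ℝ × ℝ), BR g → (∀ z, 0 ≤ g z) → ‖P‖ ≤ ϖ →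
      ∫⁻ z, (⨆ k : ℤ, ‖∑ n ∈ Finset.range Nm, Vc τ m₀ k n g (z - (2 : ℝ) ^ k • P)‖ₑ) ^ p ≤
        ENNReal.ofReal (C * (1 + ∑ n ∈ Finset.range Nm, τ n ^ p)) *
          ∫⁻ z, ENNReal.ofReal (g z) ^ p

/-! ## `p ≥ 2` -/

/-- TAY (about 120 lines).  If `|y| ≤ |x|/2` (`x > 0` by symmetry): Taylor for `t ↦ (x + t y)^p` on `[0,1]`, second derivative
`p(p-1)(x+ty)^(p-2) y² ≤ p(p-1)(3/2)^(p-2) x^(p-2) y²`.  If `|x| < 2|y|`: `|x+y|^p ≤ 3^p |y|^p` and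
`p |x|^(p-1) |y| ≤ p 2^(p-1) |y|^p`.  Hypotheses: none. -/
def StTAY : Prop :=
  ∀ p : ℝ, 2 ≤ p → ∃ C : ℝ, 0 < C ∧ ∀ x y : ℝ,
    |x + y| ^ p ≤ |x| ^ p + p * (|x| ^ (p - 2) * x * y) + C * (|x| ^ (p - 2) * y ^ 2 + |y| ^ p)

/-- SB (about 250 lines), Burkholder (upper square function bound).  `M_j = ∑_{i<j} d_i` is constant on the cells of level
`m - j + 1`, `∫ |M_j|^(p-2) M_j d_j = 0` (self-adjointness, `E1 (m-j+1) d_j = 0`).  TAY: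
`∫ |M_J|^p ≤ C ∑_{j<J} ∫ (|M_j|^(p-2) d_j² + |d_j|^p) ≤ C ∫ (M*)^(p-2) S² + C ∫ S^p`, `S² = ∑ d_j²`, `M* = max_j |M_j|`,
`M_j = E1 (m-j+1) M_J`, so `M* ≤ Mx |M_J|` and `‖M*‖_p ≤ C ‖M_J‖_p` (HLA).  Hölder: `X^p ≤ C (X^(p-2) Y² + Y^p)` for `X = ‖M_J‖_p < ∞`,
`Y = ‖S‖_p`, hence `X ≤ C' Y`.  Hypotheses: hEA, hTAY, hHLA. -/
def StSB : Prop :=
  ∀ p : ℝ, 2 < p → ∃ C : ℝ, 0 < C ∧ ∀ (m : ℤ) (J : ℕ) (d : ℕ → ℝ → ℝ), (∀ j, B1 (d j)) →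
    (∀ (j : ℕ) (b : ℝ), E1 (m - (j : ℤ)) (d j) b = d j b) →
    (∀ (j : ℕ) (b : ℝ), E1 (m - (j : ℤ) + 1) (d j) b = 0) →
    ∫⁻ b, ‖∑ j ∈ Finset.range J, d j b‖ₑ ^ p ≤
      ENNReal.ofReal C * ∫⁻ b, (∑ j ∈ Finset.range J, ‖d j b‖ₑ ^ 2) ^ (p / 2)

/-- SA (about 300 lines), Burkholder (lower square function bound).  `r = p/2 > 1`.  For `m` in `[-M, M]` let `d_m = D1 m h`,
`A_n = ∑_{m ≥ n} d_m²` (constant on cells of level `n`), `T_n = ∑_{m ≤ n} d_m²`, `A = A_{-M}`.  (1) For a cell `I` of level `n+1`,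
`∫_I ∑_{m ≤ n} d_m² ≤ ∫_I h²` (Bessel for `(h - E1 (n+1) h) 1_I`), so `E1 n T_n = d_n² + E1 n T_{n-1} ≤ 4 (Mx|h|)² + E1 n (h²) ≤ 9 Mx (h²)`.
(2) For `r ≥ 1`: `A^r ≤ r ∑_n T_n (A_n^(r-1) - A_{n+1}^(r-1))`: indeed `∑_n (A_n^(r-1) - A_{n+1}^(r-1)) = A^(r-1)`, `T_n = A - A_{n+1}` and
`y (x^(r-1) - y^(r-1)) ≤ ((r-1)/r)(x^r - y^r)` for `0 ≤ y ≤ x`.  (3) Integrate: `∫ A^r ≤ r ∑ ∫ (E1 n T_n)(A_n^(r-1) - A_{n+1}^(r-1)) ≤`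
`9 r ∫ Mx(h²) A^(r-1) ≤ 9 r ‖Mx(h²)‖_r ‖A‖_r^(r-1)`, so `‖A‖_r ≤ C ‖h²‖_r` (HLA; `‖A‖_r < ∞`).  `M → ∞`.
Hypotheses: hEA, hORT, hHLA. -/
def StSA : Prop :=
  ∀ p : ℝ, 2 < p → ∃ C : ℝ, 0 < C ∧ ∀ h : ℝ → ℝ, B1 h →
    ∫⁻ b, (∑' m : ℤ, ‖D1 m h b‖ₑ ^ 2) ^ (p / 2) ≤ ENNReal.ofReal C * ∫⁻ b, ‖h b‖ₑ ^ p

/-- VEC (about 200 lines).  `r = p/2 > 1`, `r' = r/(r-1)`.  `F = ∑_j |B_j x_j|²`, `B_j x = ∑_{n ≥ j} Rh ρ_n k x`, total mass at most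
`2 τ j`, so `|B_j x|² ≤ 2 τ_j ∑_{n ≥ j} ∫ |x(z.1 - 2^k s, z.2)|² dρ_n(s)` (Cauchy-Schwarz).  With `w = F^(r-1)`:
`∫ F^r = ∫ F w ≤ ∑_j 2 τ_j ∫ |x_j|² (∑_{n≥j} ∫ w(z.1 + 2^k s, z.2) dρ_n(s)) ≤ 8 ∫ (∑_j τ_j² |x_j|²) M1 (M1 w)` (Tonelli, translation, RHO),
Hölder, `‖M1 M1 w‖_{r'} ≤ C ‖w‖_{r'} = C ‖F‖_r^(r-1)`, `‖F‖_r < ∞`.  Hypotheses: hEB, hRHO, hHLA. -/
def StVEC : Prop :=
  ∀ p : ℝ, 2 < p → ∃ C : ℝ, 0 < C ∧ ∀ (τ : ℕ → ℝ) (m₀ : ℕ), Seq τ m₀ → ∀ (Nm : ℕ) (k : ℤ)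
    (x : ℕ → ℝ × ℝ → ℝ), (∀ j, BR (x j)) →
    ∫⁻ z, (∑ j ∈ Finset.range Nm,
        ‖∑ n ∈ Finset.Ico j Nm, Rh (rho τ m₀ n) k (x j) z‖ₑ ^ 2) ^ (p / 2) ≤
      ENNReal.ofReal C * ∫⁻ z, (∑ j ∈ Finset.range Nm,
        ENNReal.ofReal (τ j ^ 2) * ‖x j z‖ₑ ^ 2) ^ (p / 2)

/-- YNG (about 60 lines).  Hölder: `(∑_j t_j a_{k-j})^r ≤ (∑_j t_j^r a_{k-j}) (∑_j a_{k-j})^(r-1) ≤ (∑_j t_j^r a_{k-j}) A^(r-1)`, sum over `k`.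
Hypotheses: none. -/
def StYNG : Prop :=
  ∀ (r : ℝ) (a : ℤ → ℝ≥0∞) (t : ℕ → ℝ≥0∞) (J : ℕ) (c : ℤ), 1 ≤ r →
    ∑' k : ℤ, (∑ j ∈ Finset.range J, t j * a (k + c - (j : ℤ))) ^ r ≤
      (∑ j ∈ Finset.range J, t j ^ r) * (∑' m : ℤ, a m) ^ r

/-- DB (about 250 lines).  `sup_k ≤ (∑_k |.|^p)^(1/p)` and translation invariance:
`∫ T^p ≤ ∑_k ∫ |∑_{n<Nm} Vc k n g|^p`.  For `p = 2`: LL with `R = 1`, `ω = 1`, `wt ≤ 2 τ j`.  For `p > 2`, `m = k - m₀ + 2`: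
`∑_n Vc k n g = ∑_{1 ≤ j < Nm} D2 (m-j) (B_j g) = ∑_j B_j (D2 (m-j) g)`, `B_j x = ∑_{j ≤ n < Nm} Rh ρ_n k x`.  SB in the second variable for
`d_0 = 0`, `d_j = D2 (m-j)(B_j g)(a, ·)` (tower), then VEC with `x_j = D2 (m-j) g`, then YNG at each `z` with
`a_m = |D2 m g z|²`, `t_j = τ_j²`, `r = p/2` (`t_j^r = τ_j^p`), then SA in the second variable.
Hypotheses: hEA, hEB, hRHO, hORT, hLL, hSB, hSA, hVEC, hYNG. -/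
def StDB : Prop :=
  ∀ p : ℝ, 2 ≤ p → ∃ C : ℝ, 0 < C ∧ ∀ (τ : ℕ → ℝ) (m₀ : ℕ), Seq τ m₀ →
    ∀ (Nm : ℕ) (g : ℝ × ℝ → ℝ) (P : ℝ × ℝ), BR g →
      ∫⁻ z, (⨆ k : ℤ, ‖∑ n ∈ Finset.range Nm, Vc τ m₀ k n g (z - (2 : ℝ) ^ k • P)‖ₑ) ^ p ≤
        ENNReal.ofReal (C * ∑ n ∈ Finset.range Nm, τ n ^ p) * ∫⁻ z, ‖g z‖ₑ ^ p

/-! ## The low frequency operator -/

/-- HLP (about 200 lines).  Let `2^i ≥ ϖ + 4`.  `‖E2 (k-m₀+2) g (a', b - 2^k P.2)‖ₑ ≤ 2^(m₀-2-k) ∫_{|s| ≤ 2^(k+i)} |g(a', b+s)| ds ≤ 2^(m₀+i) M2 |g| (a', b)`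
(the cell of `b - 2^k P.2` lies within `2^k (ϖ + 4)` of `b`).  Then
`∑_n ∫ G(a - 2^k P.1 - 2^k s) dρ_n(s) = ∑_n ∫_{J_n} ∫_{|α| ≤ 1} G(a - 2^k P.1 - 2^k t - 2^k η_n α) dα dt ≤ ∑_n ∫_{J_n} (Mx G)(a - 2^k (P.1 + t)) dt`
`≤ ∫_{|t| ≤ 2^i} (Mx G)(a + 2^k t) dt ≤ 2^i Mx (Mx G)(a)`.  So the supremum is at most `C M1 (M1 (M2 |g|))`.
Hypotheses: hEA, hEB, hRHO, hHLA. -/
def StHLP : Prop :=
  ∀ (p ϖ : ℝ) (m₀ : ℕ), 1 < p → 0 < ϖ → ∃ C : ℝ, 0 < C ∧ ∀ τ : ℕ → ℝ, Seq τ m₀ →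
    ∀ (Nm : ℕ) (g : ℝ × ℝ → ℝ) (P : ℝ × ℝ), BR g → ‖P‖ ≤ ϖ →
      ∫⁻ z, (⨆ k : ℤ, ‖∑ n ∈ Finset.range Nm,
        Rh (rho τ m₀ n) k (E2 (k - (m₀ : ℤ) + 2) g) (z - (2 : ℝ) ^ k • P)‖ₑ) ^ p ≤
        ENNReal.ofReal C * ∫⁻ z, ‖g z‖ₑ ^ p

/-- DYT (about 80 lines).  `Vn = Vc + Rh ρ_n k (E2 (k-m₀+2) g)` (RHO); `(a+b)^p ≤ 2^(p-1)(a^p + b^p)`; DA or DB, and HLP.
Hypotheses: hEB, hRHO, hDA, hDB, hHLP. -/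
def StDYT : Prop :=
  ∀ (p ϖ : ℝ) (m₀ : ℕ), 1 < p → 0 < ϖ → ∃ C : ℝ, 0 < C ∧ ∀ τ : ℕ → ℝ, Seq τ m₀ →
    ∀ (Nm : ℕ) (g : ℝ × ℝ → ℝ) (P : ℝ × ℝ), BR g → (∀ z, 0 ≤ g z) → ‖P‖ ≤ ϖ →
      ∫⁻ z, (⨆ k : ℤ, ENNReal.ofReal (∑ n ∈ Finset.range Nm,
        Vn τ m₀ k n g (z - (2 : ℝ) ^ k • P))) ^ p ≤
        ENNReal.ofReal (C * (1 + ∑ n ∈ Finset.range Nm, τ n ^ p)) *
          ∫⁻ z, ENNReal.ofReal (g z) ^ p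

/-- AVG (about 150 lines).  `E1 m (h(· - σ))(b + σ) = 2^(-m) ∫ 1_{⌊(y+σ)/2^m⌋ = ⌊(b+σ)/2^m⌋} h(y) dy`.  Fubini in `σ ∈ [0, 2^M]`: for
`|y - b| ≤ 2^(m-1)` the set of `σ ∈ [0, 2^M]` with `⌊(y+σ)/2^m⌋ = ⌊(b+σ)/2^m⌋` has measure at least `2^M/2` (the indicator is
`2^m`-periodic in `σ`, `2^M` is a multiple of `2^m`, and on a period the complement has measure `|y - b|`).  Hypotheses: none. -/
def StAVG : Prop :=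
  ∀ (m M : ℤ), m ≤ M → ∀ h : ℝ → ℝ, B1 h → (∀ y, 0 ≤ h y) → ∀ b : ℝ,
    ((2 : ℝ) ^ m)⁻¹ * ∫ y in Icc (b - (2 : ℝ) ^ (m - 1)) (b + (2 : ℝ) ^ (m - 1)), h y ≤
      2 * (((2 : ℝ) ^ M)⁻¹ * ∫ σ in Icc (0 : ℝ) ((2 : ℝ) ^ M), E1 m (fun y => h (y - σ)) (b + σ))

end Pool.Agent.Helper68.LM2
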