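import Pool.Agent.Helper68.LM2.Geo
import Pool.Agent.Helper62.LM2.M_EA
import Pool.Agent.Helper13.LM2.M_EB
import Pool.Agent.Helper29.LM2.M_RHO
import Pool.Agent.Helper19.LM2.M_ORT
import Pool.Agent.Helper70.LM2.M_LL
import Pool.Agent.Helper80.LM2.M_LCG
import Pool.Agent.Helper9.LM2.M_HW
import Pool.Agent.Helper67.LM2.M_HLA
import Pool.Agent.Helper81.LM2.M_CZS
import Pool.Agent.Helper15.LM2.M_BAD
import Pool.Agent.Helper33.LM2.M_FAR
import Pool.Agent.Helper79.LM2.M_NEAR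
import Pool.Agent.Helper23.LM2.M_LI
import Pool.Agent.Helper42.LM2.M_WS
import Pool.Agent.Helper28.LM2.M_DA
import Pool.Agent.Helper17.LM2.M_TAY
import Pool.Agent.Helper39.LM2.M_SB
import Pool.Agent.Helper65.LM2.M_SA
import Pool.Agent.Helper93.LM2.M_VEC
import Pool.Agent.Helper42.LM2.M_YNG
import Pool.Agent.Helper77.LM2.M_DB
import Pool.Agent.Helper94.LM2.M_HLP
import Pool.Agent.Helper4.LM2.M_DYT
import Pool.Agent.Helper17.LM2.M_AVG
import Pool.Agent.Helper4.LM2.M_NUT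
import Pool.Agent.Helper27.LM2.M_LTG
import Pool.Agent.Helper98.LM2.M_HIB
import Pool.Agent.Helper27.LM2.M_HIS
import Pool.Agent.Helper19.LM2.M_HI
import Pool.Agent.Helper31.LM2.M_CO
import Pool.Agent.Helper62.LM2.M_TAU
import Pool.Agent.Helper71.LM2.M_LOWD
import Pool.Agent.Helper99.LM2.M_LOWM
import Pool.Agent.Helper70.LM2.M_ARC
import Pool.Agent.Helper13.LM2.M_CAPT
import Pool.Agent.Helper99.LM2.M_SUMT
import Pool.Agent.Helper6.LM2.M_SIDM
import Pool.Agent.Helper31.LM2.M_MBA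
import Pool.Agent.Helper17.LM2.M_FING
import Pool.Agent.Helper39.LM2.M_LOC
import Pool.Agent.Helper17.LM2.M_THC

/-!
# Project LM2 (MP_cb927e_an): assembly
-/

set_option autoImplicit false

namespace Pool.Agent.Helper68.LM2

theorem aEA : StEA := Helper62.LM2.hEA
theorem aEB : StEB := Helper13.LM2.hEB aEA
theorem aRHO : StRHO := Helper29.LM2.hRHO aEA aEB
theorem aORT : StORT := Helper19.LM2.hORT aEA aEB
theorem aLL : StLL := Helper70.LM2.hLL aEB aRHO aORT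
theorem aLCG : StLCG := Helper80.LM2.hLCG
theorem aHLA : StHLA := Helper67.LM2.hHLA aLCG Helper9.LM2.hHW
theorem aCZS : StCZS := Helper81.LM2.hCZS
theorem aBAD : StBAD := Helper15.LM2.hBAD aEA aEB aRHO
theorem aFAR : StFAR := Helper33.LM2.hFAR aEB aRHO aLL aCZS aBAD
theorem aNEAR : StNEAR := Helper79.LM2.hNEAR aEB aRHO aLL
theorem aDA : StDA :=
  Helper28.LM2.hDA aLCG aEB aRHO aFAR aNEAR Helper23.LM2.hLI Helper42.LM2.hWS
theorem aSB : StSB := Helper39.LM2.hSB aEA Helper17.LM2.hTAY aHLA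
theorem aSA : StSA := Helper65.LM2.hSA aEA aORT aHLA
theorem aVEC : StVEC := Helper93.LM2.hVEC aEB aRHO aHLA
theorem aDB : StDB :=
  Helper77.LM2.hDB aEA aEB aRHO aORT aLL aSB aSA aVEC Helper42.LM2.hYNG
theorem aHLP : StHLP := Helper94.LM2.hHLP aEA aEB aRHO aHLA
theorem aDYT : StDYT := Helper4.LM2.hDYT aEB aRHO aDA aDB aHLP
theorem aLTG : StLTG := Helper27.LM2.hLTG Helper4.LM2.hNUT
theorem aHI : StHI := Helper19.LM2.hHI (Helper98.LM2.hHIB aLTG) (Helper27.LM2.hHIS aLTG)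
theorem aCO : StCO := Helper31.LM2.hCO
theorem aTAU : StTAU := Helper62.LM2.hTAU
theorem aLOWD : StLOWD := Helper71.LM2.hLOWD aEB aRHO Helper17.LM2.hAVG aCO aTAU
theorem aLOWM : StLOWM := Helper99.LM2.hLOWM aDYT aCO aLOWD
theorem aARC : StARC := Helper70.LM2.hARC aTAU
theorem aSIDM : StSIDM := Helper6.LM2.hSIDM aHI aLOWM aARC Helper99.LM2.hSUMT
theorem aLOC : StLOC :=
  Helper39.LM2.hLOC aSIDM Helper31.LM2.hMBA aTAU Helper13.LM2.hCAPT
theorem aTHC : StTHC := Helper17.LM2.hTHC Helper31.LM2.hMBA Helper17.LM2.hFING aLOC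

end Pool.Agent.Helper68.LM2
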