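import Pool.Agent.Helper68.LM2.St

/-!
# Project LM2 (MP_cb927e_an), part 2: high frequencies, geometry, assembly

All statements of project LM (first part) are theorems, see `Pool.Agent.Helper68.LM.Asm` (`aBBC`, `aMZ2`, `aHLS`, `aFS`,
`aL2D`, `aCONV`, `aTD`, `aHA`, `aAD`, ...; modules may import that file, and
`Pool.Agent.Helper29.LM.hPH : StPH`, `Pool.Agent.Helper79.LM.hPL : StPL`, `Pool.Agent.Helper80.LM.hFA : StFA`,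
`Pool.Agent.Helper60.LM.hDOM : StDOM`, `Pool.Agent.Helper31.LM.hSD : StSD`, `Pool.Agent.Helper82.LM.hSUP : StSUP`).
-/

set_option autoImplicit false

open MeasureTheory Set Filter Topology
open scoped ENNReal RealInnerProductSpace

namespace Pool.Agent.Helper68.LM2

open Pool.Agent.Helper68.LM
open Pool.Agent.Helper61.Lacunary (ConditionG LpBounded)

/-- `A_k (g - S_{2^(k-m)} g)` -/
noncomputable def Em (ν : Measure Pl) (m : ℕ) (k : ℤ) (g : Pl → ℝ) : Pl → ℝ :=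
  Av ν ((2 : ℝ) ^ k) (fun x => g x - Sm ((2 : ℝ) ^ (k - (m : ℤ))) g x)

/-- the exponent `max 0 ((2-p)/p)` -/
noncomputable def al (p : ℝ) : ℝ := max 0 ((2 - p) / p)

/-- The lacunary maximal operator of the finite measure `ν` is bounded on `L^p`. -/
def MB (p : ℝ) (ν : Measure Pl) : Prop :=
  IsFiniteMeasure ν ∧ ∃ C : ℝ, ∀ f : Pl → ℝ≥0∞, Measurable f →
    ∫⁻ x, (⨆ k : ℤ, ∫⁻ y, f (x - (2 : ℝ) ^ k • y) ∂ν) ^ p ≤ ENNReal.ofReal C * ∫⁻ x, f x ^ p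

/-- the measure on the arc number `n` of a side -/
noncomputable def nu (P u v : Pl) (φ : ℝ → ℝ) (τ : ℕ → ℝ) (n : ℕ) : Measure Pl :=
  arcMeasure (τ (n + 1)) (τ n) (curve P u v φ)

/-- `φ (τ n) = 2^(-(m₀+n))` -/
def Lev (c : ℝ) (φ : ℝ → ℝ) (m₀ : ℕ) (τ : ℕ → ℝ) : Prop :=
  Seq τ m₀ ∧ τ 0 < c ∧ (∀ n, φ (τ n) = (2⁻¹ : ℝ) ^ (m₀ + n)) ∧ Tendsto τ atTop (𝓝 0)

/-! ## High frequencies -/

/-- NUT (about 120 lines).  As NUM of part 1 (`Pool/Agent/Helper27/LM/M_NUM.lean`): choose `m : ℤ` with `2^m ≤ r < 2^(m+1)`, shift `k`: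
terms at most `min 1 (2^(N-k)) min 4 (64 π² 4^(k-n+1))`: `∑_{k ≤ n} ≤ C`, `∑_{n < k ≤ N} 4`, `∑_{k > N} 4·2^(N-k) = 4`.
Hypotheses: none. -/
def StNUT : Prop :=
  ∃ C : ℝ, 0 < C ∧ ∀ (N n : ℕ) (r : ℝ), 0 < r → n ≤ N →
    ∑' k : ℤ, ENNReal.ofReal (min 1 (2 ^ N / ((2 : ℝ) ^ k * r)) *
      min 4 ((4 * Real.pi * ((2 : ℝ) ^ (k - (n : ℤ)) * r)) ^ 2)) ≤
        ENNReal.ofReal (C * ((N : ℝ) - n + 1))

/-- LTG (about 200 lines).  As L2E and L2D of part 1 (`Pool/Agent/Helper17/LM/M_L2E.lean`, `M_L2D.lean`), with NUT instead of NUM: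
`ft (Em ν m k g) ξ = fm ν (2^k ξ) (1 - ft ph (2^(k-m) ξ)) ft g ξ`.  Hypotheses: hNUT (and the theorems of part 1). -/
def StLTG : Prop :=
  ∃ C : ℝ, 0 < C ∧ ∀ (ν : Measure Pl) (R L : ℝ) (N : ℕ), Bd R L ν → 0 < L → Dec L N ν →
    (∀ m : ℕ, m ≤ N → ∀ g : Pl → ℝ, BB g → ∑' k : ℤ, ∫⁻ x, ‖Em ν m k g x‖ₑ ^ 2 ≤
      ENNReal.ofReal (C * L ^ 2 * ((N : ℝ) - m + 1)) * ∫⁻ x, ‖g x‖ₑ ^ 2) ∧
    (∀ a b : ℕ, b ≤ a → b ≤ N → ∀ g : Pl → ℝ, BB g → ∑' k : ℤ, ∫⁻ x, ‖Dk ν a b k g x‖ₑ ^ 2 ≤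
      ENNReal.ofReal (C * L ^ 2 * ((N : ℝ) - b + 1)) * ∫⁻ x, ‖g x‖ₑ ^ 2)

/-- HIB (about 180 lines).  As the second term in PA of part 1 (`Pool/Agent/Helper29/LM/M_PA.lean`, lemma `T_bound`), with
`Em ν m` instead of `Ek ν` (`Em ν 0 = Ek ν`) and LTG.  `p = 2`: `sup² ≤ ∑`.  `p > 2`: `g₁ = g 1_{g ≤ c}`, `g₂ = g 1_{g > c}`, `c = lam/(4L)`,
MZ2 with `s = 1/(4L)`.  Hypotheses: hLTG (and the theorems of part 1). -/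
def StHIB : Prop :=
  ∀ p R : ℝ, 2 ≤ p → 0 < R → ∃ C : ℝ, 0 < C ∧ ∀ (ν : Measure Pl) (L : ℝ) (N m : ℕ), Bd R L ν →
    0 < L → Dec L N ν → m ≤ N → ∀ g : Pl → ℝ, BB g → (∀ x, 0 ≤ g x) →
      ∫⁻ x, (⨆ k : ℤ, ‖Em ν m k g x‖ₑ) ^ p ≤
        ENNReal.ofReal (C * (L ^ p * ((N : ℝ) - m + 1))) * ∫⁻ x, ENNReal.ofReal (g x) ^ p

/-- HIS (about 250 lines).  As PB of part 1 (`Pool/Agent/Helper29/LM/M_PB.lean`).  By CONV, for a.e. `x` and all `k`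
`Em ν m k g = Dk ν N m k g + lim_M ∑_{n=N}^{M-1} Dk ν (n+1) n k g`.  TD with `a = N`, `b = m`, `A² = C L² (N-m+1)` (LTG):
`‖sup_k |Dk ν N m|‖_p^p ≤ C L^p (N+1)^(2-p) (N-m+1)^(p-1)`; TD with `a = n+1`, `b = n`, `A² = C L² 2^(N-n)` (L2D): `≤ C L^p (n+2)^(2-p) 2^(-(n-N)(p-1))`, the
`p`-th roots sum to at most `C L (N+1)^((2-p)/p)`.  Hypotheses: hLTG (and the theorems of part 1). -/
def StHIS : Prop :=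
  ∀ p R : ℝ, 1 < p → p < 2 → 0 < R → ∃ C : ℝ, 0 < C ∧ ∀ (ν : Measure Pl) (L : ℝ) (N m : ℕ),
    Bd R L ν → 0 < L → Dec L N ν → m ≤ N → ∀ g : Pl → ℝ, BB g → (∀ x, 0 ≤ g x) →
      ∫⁻ x, (⨆ k : ℤ, ‖Em ν m k g x‖ₑ) ^ p ≤
        ENNReal.ofReal (C * (L ^ p * ((N : ℝ) - m + 1) ^ (p - 1) * ((N : ℝ) + 1) ^ (2 - p))) *
          ∫⁻ x, ENNReal.ofReal (g x) ^ p

/-- HI (about 50 lines).  From HIB and HIS: `x ≤ x^p` and `x^(p-1) ≤ x^p` for `x = N - m + 1 ≥ 1`, `al p * p = 2 - p` for `p < 2`,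
`al p = 0` for `p ≥ 2`.  Hypotheses: hHIB, hHIS. -/
def StHI : Prop :=
  ∀ p R : ℝ, 1 < p → 0 < R → ∃ C : ℝ, 0 < C ∧ ∀ (ν : Measure Pl) (L : ℝ) (N m : ℕ), Bd R L ν →
    0 < L → Dec L N ν → m ≤ N → ∀ g : Pl → ℝ, BB g → (∀ x, 0 ≤ g x) →
      ∫⁻ x, (⨆ k : ℤ, ‖Em ν m k g x‖ₑ) ^ p ≤
        ENNReal.ofReal (C * (L * ((N : ℝ) - m + 1) * ((N : ℝ) + 1) ^ (al p)) ^ p) *
          ∫⁻ x, ENNReal.ofReal (g x) ^ p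

/-! ## Low frequencies -/

/-- CO (about 120 lines), orthonormal coordinates.  `(a,b) ↦ a u + b v` is a linear isometry from the Euclidean plane
(`OrthonormalBasis`), measure preserving (`OrthonormalBasis.measurePreserving_repr`,
`PiLp.volume_preserving_ofLp` / `EuclideanSpace.volume_preserving_...`, `MeasurableEquiv.finTwoArrow`).  Hypotheses: none. -/
def StCO : Prop :=
  ∀ u v : Pl, ‖u‖ = 1 → ‖v‖ = 1 → ⟪u, v⟫ = 0 →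
    MeasurePreserving (fun z : ℝ × ℝ => z.1 • u + z.2 • v) volume volume ∧
    (∀ x : Pl, ⟪x, u⟫ • u + ⟪x, v⟫ • v = x) ∧
    (∀ a b : ℝ, ⟪a • u + b • v, u⟫ = a ∧ ⟪a • u + b • v, v⟫ = b ∧
      ‖a • u + b • v‖ ^ 2 = a ^ 2 + b ^ 2) ∧
    (∀ g : Pl → ℝ, BB g → BR (fun z => g (z.1 • u + z.2 • v))) ∧
    (∀ F : Pl → ℝ≥0∞, Measurable F → ∫⁻ x, F x = ∫⁻ z : ℝ × ℝ, F (z.1 • u + z.2 • v)) ∧
    (∀ F : ℝ × ℝ → ℝ≥0∞, Measurable F → ∫⁻ z, F z = ∫⁻ x : Pl, F (⟪x, u⟫, ⟪x, v⟫))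

/-- TAU (about 150 lines).  By SD `φ' > 0` on `(0,c)`, so `φ` is strictly increasing on `[0,c)` with `φ 0 = 0`, and `φ t ≤ t` as
`|φ'| ≤ 1`.  Choose `m₀` with `2^(-m₀) < φ (c/2)` and `τ n` in `(0, c/2)` by the intermediate value theorem.  Second part:
monotonicity.  Hypotheses: none (SD is a theorem). -/
def StTAU : Prop :=
  (∀ (P u v : Pl) (c : ℝ) (φ : ℝ → ℝ), Side P u v c φ → ∃ (m₀ : ℕ) (τ : ℕ → ℝ), Lev c φ m₀ τ) ∧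
  ∀ (P u v : Pl) (c : ℝ) (φ : ℝ → ℝ) (m₀ : ℕ) (τ : ℕ → ℝ), Side P u v c φ → Lev c φ m₀ τ →
    ∀ n, ∀ t ∈ Icc (τ (n + 1)) (τ n), 0 ≤ φ t ∧ φ t ≤ (2⁻¹ : ℝ) ^ (m₀ + n)

/-- LOWD (about 250 lines).  Let `s = 2^(k-m₀-n) = 2^k η`, `g̃(a,b) = g(a u + b v)`, `(a₀, b₀) = (⟪x,u⟫ - 2^k ⟪P,u⟫, ⟪x,v⟫ - 2^k ⟪P,v⟫)`.
`Av ν_n 2^k (Sm s g) x = ∫_{t ∈ J_n} (Sm s g)(x - 2^k (P + t u + φ(t) v)) dt`, and as `ph ≤ C₀` vanishes off the unit ball, in the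
coordinates (CO) it is at most `C₀ ∫_{J_n} ∫_{|α| ≤ 1} ∫_{|β| ≤ 1} g̃(a₀ - 2^k t - s α, b₀ - 2^k φ(t) - s β)`; as
`0 ≤ 2^k φ(t) ≤ s` (TAU) the inner integral is at most `s⁻¹ ∫_{|y - b₀| ≤ 2s} g̃(a₀ - 2^k (t + η α), y) dy`, and with
`2^m = 4s`, `m = k - m₀ - n + 2 ≤ M`, AVG bounds it by `8` times the mean over `σ` of
`E1 m (g̃(.., · - σ))(b₀ + σ)`.  Exchange the integrals (nonnegative, bounded, finite measures).  `C = 8 C₀`.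
Hypotheses: hEB, hRHO, hAVG, hCO, hTAU. -/
def StLOWD : Prop :=
  ∃ C : ℝ, 0 < C ∧ ∀ (P u v : Pl) (c : ℝ) (φ : ℝ → ℝ) (m₀ : ℕ) (τ : ℕ → ℝ), Side P u v c φ →
    Lev c φ m₀ τ → ∀ g : Pl → ℝ, BB g → (∀ x, 0 ≤ g x) → ∀ (n : ℕ) (k M : ℤ), k + 2 ≤ M →
      ∀ x : Pl, Av (nu P u v φ τ n) ((2 : ℝ) ^ k) (Sm ((2 : ℝ) ^ (k - (m₀ : ℤ) - (n : ℤ))) g) x ≤
        C * (((2 : ℝ) ^ M)⁻¹ * ∫ σ in Icc (0 : ℝ) ((2 : ℝ) ^ M),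
          Vn τ m₀ k n (fun z => g (z.1 • u + (z.2 - σ) • v))
            (⟪x, u⟫ - (2 : ℝ) ^ k * ⟪P, u⟫, ⟪x, v⟫ - (2 : ℝ) ^ k * ⟪P, v⟫ + σ))

/-- LOWM (about 200 lines).  For `k` in `[-K, K]` take `M = K + 2`.  By LOWD the finite supremum at `x` is at most
`C` times the mean over `σ ∈ [0, 2^M]` of `W_σ(x) = sup_k ∑_n Vn k n g_σ (z - 2^k P' + (0,σ))`, `z = (⟪x,u⟫, ⟪x,v⟫)`,
`P' = (⟪P,u⟫, ⟪P,v⟫)`, `g_σ(z) = g(z.1 u + (z.2 - σ) v)`.  Jensen (`(mean W)^p ≤ mean W^p`), Tonelli, CO, and for fixed `σ` DYT for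
`g_σ` (translation invariance; `∫ g_σ^p = ∫ g^p`).  `K → ∞` by monotone convergence.  Hypotheses: hEB, hRHO, hDYT, hCO, hLOWD. -/
def StLOWM : Prop :=
  ∀ (p : ℝ) (P u v : Pl) (c : ℝ) (φ : ℝ → ℝ) (m₀ : ℕ) (τ : ℕ → ℝ), 1 < p → Side P u v c φ →
    Lev c φ m₀ τ → ∃ C : ℝ, 0 < C ∧ ∀ (Nm : ℕ) (g : Pl → ℝ), BB g → (∀ x, 0 ≤ g x) →
      ∫⁻ x, (⨆ k : ℤ, ENNReal.ofReal (∑ n ∈ Finset.range Nm, Av (nu P u v φ τ n) ((2 : ℝ) ^ k)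
        (Sm ((2 : ℝ) ^ (k - (m₀ : ℤ) - (n : ℤ))) g) x)) ^ p ≤
        ENNReal.ofReal (C * (1 + ∑ n ∈ Finset.range Nm, τ n ^ p)) *
          ∫⁻ x, ENNReal.ofReal (g x) ^ p

/-! ## Geometry -/

/-- ARC (about 150 lines).  `φ''(t) ≥ φ''(τ (n+1)) ≥ 2 φ(τ (n+1))/τ (n+1)² ≥ 2^(-(m₀+n))` for `t` in `(τ (n+1), τ n)` (SD, `τ ≤ 1`).
`nu` has mass `λ = τ n - τ (n+1)` and lives on `‖y‖ ≤ ‖P‖ + 2`.  AD with `κ = 2^(-(m₀+n))`: `C₀/(κ λ²) = C₀ 2^(m₀+n)/λ² ≤ 2^(m₀+n+e)` for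
the least `e` with `C₀/λ² ≤ 2^e`; then `2^e ≤ 2 C₀/λ²`.  Hypotheses: hTAU (and the theorems of part 1). -/
def StARC : Prop :=
  ∃ C : ℝ, 1 ≤ C ∧ ∀ (P u v : Pl) (c : ℝ) (φ : ℝ → ℝ) (m₀ : ℕ) (τ : ℕ → ℝ), Side P u v c φ →
    Lev c φ m₀ τ → ∀ n : ℕ,
      IsArc (τ (n + 1)) (τ n) ((2⁻¹ : ℝ) ^ (m₀ + n)) (curve P u v φ) ∧
      Bd (‖P‖ + 2) (τ n - τ (n + 1)) (nu P u v φ τ n) ∧
      ∃ e : ℕ, (2 : ℝ) ^ e ≤ C / (τ n - τ (n + 1)) ^ 2 ∧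
        Dec (τ n - τ (n + 1)) (m₀ + n + e) (nu P u v φ τ n)

/-- CAPT (about 200 lines).  As CAP of part 1 (`Pool/Agent/Helper12/LM/M_CAP.lean`): with `θ = -v`, if `φ (τ n) ≤ δ` then
`capLength Ω θ δ ≥ τ n`.  For `n ≥ n₀` (with `2^(1-m₀-n₀) ≤ δ₀`) the intervals `(2^(-(m₀+n)), 2^(1-(m₀+n)))` are disjoint and contained
in `(0, δ₀)`, and on each `∫ (τ n)^p dδ/δ = log 2 (τ n)^p`; so `log 2 ∑_{n ≥ n₀} (τ n)^p ≤ A'`.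
Hypotheses: none (SD, SUP are theorems). -/
def StCAPT : Prop :=
  ∀ (Ω : Set Pl) (P u v : Pl) (c p : ℝ) (φ : ℝ → ℝ) (m₀ : ℕ) (τ : ℕ → ℝ), IsOpen Ω → Convex ℝ Ω →
    Bornology.IsBounded Ω → Ω.Nonempty → 0 < p → ConditionG Ω p → Side P u v c φ →
    P ∈ frontier Ω → curve P u v φ '' Ioo 0 c ⊆ frontier Ω → Lev c φ m₀ τ →
    Summable (fun n => τ n ^ p)

/-- SUMT (about 200 lines), numbers.  `λ_n = τ n - τ (n+1) ≤ 1`.  `(m₀+n+e+1)^α ≤ (m₀+1)(n+1)^α (e+1)` (as `0 ≤ α ≤ 1`), so it suffices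
to sum `λ_n (e_n+1)² (n+1)^α`; `e_n ≤ log₂ C + 2 log₂ (1/λ_n)`.  If `λ_n ≥ (n+2)^(-4)` then `(e_n+1)² ≤ C' (n+2)^ε` with
`α + ε < 1/p`, and `∑ λ_n (n+2)^β < ∞` for `0 < β < 1/p`: Abel summation and
`(n+1) (τ n)^p ≤ ∑ τ^p` give `≤ C + ∑ C n^(β-1-1/p)`.  If `λ_n < (n+2)^(-4)` then `λ_n (e_n+1)² ≤ C' λ_n^(1/2) ≤ C' (n+2)^(-2)`, and
`α < 1`.  Hypotheses: none. -/
def StSUMT : Prop :=
  ∀ p α : ℝ, 1 < p → 0 ≤ α → α < 1 / p → ∀ (τ : ℕ → ℝ) (m₀ : ℕ), Seq τ m₀ →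
    Tendsto τ atTop (𝓝 0) → Summable (fun n => τ n ^ p) → ∀ (C : ℝ) (e : ℕ → ℕ), 1 ≤ C →
    (∀ n, (2 : ℝ) ^ e n ≤ C / (τ n - τ (n + 1)) ^ 2) →
    Summable (fun n : ℕ => (τ n - τ (n + 1)) * ((e n : ℝ) + 1) * ((m₀ : ℝ) + n + e n + 1) ^ α)

/-- SIDM (about 300 lines).  `ν^N = arcMeasure (τ N) (τ 0) γ = ∑_{n<N} nu n` (as measures, up to end points).  For `g` in `BB`, `g ≥ 0`:
`Av ν^N 2^k g = ∑_{n<N} (Em (nu n) (m₀+n) k g + Av (nu n) 2^k (Sm 2^(k-m₀-n) g))`, so by Minkowski, HI (with `m = m₀+n`,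
`N = m₀+n+e_n`) and LOWM `‖sup_k Av ν^N 2^k g‖_p ≤ (C^(1/p) ∑ λ_n (e_n+1)(m₀+n+e_n+1)^(al p) + (C (1+∑ τ^p))^(1/p)) ‖g‖_p`, bounded
independently of `N` by SUMT (`al p < 1/p`).  For measurable `f ≥ 0`: `f_j = min(f,j) 1_{‖x‖ ≤ j}` increases to `f`, and
`∫ F d(arcMeasure 0 (τ 0) γ) = sup_N ∫ F dν^N`; monotone convergence as in HA (`Pool/Agent/Helper82/LM/M_HA.lean`).
Hypotheses: hHI, hLOWM, hARC, hSUMT. -/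
def StSIDM : Prop :=
  ∀ (p : ℝ) (P u v : Pl) (c : ℝ) (φ : ℝ → ℝ) (m₀ : ℕ) (τ : ℕ → ℝ), 1 < p → Side P u v c φ →
    Lev c φ m₀ τ → Summable (fun n => τ n ^ p) → MB p (arcMeasure 0 (τ 0) (curve P u v φ))

/-- MBA (about 120 lines).  First: `κ' = min κ 1`, `IsArc` with `κ'`, AD with `N` large, `Bd R (b-a)` as `G` is bounded on
`[a,b]`, HA.  Sum: `(⨆ (a+b))^p ≤ 2^(p-1) ((⨆ a)^p + (⨆ b)^p)`, measurability of `x ↦ ∫⁻ f(x - 2^k y) dν` (finite measures).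
Hypotheses: none (HA, AD are theorems). -/
def StMBA : Prop :=
  ∀ p : ℝ, 1 < p →
    (∀ (a b κ : ℝ) (G : ℝ → Pl), IsArc a b κ G → 0 < κ → MB p (arcMeasure a b G)) ∧
    (∀ ν₁ ν₂ : Measure Pl, MB p ν₁ → MB p ν₂ → MB p (ν₁ + ν₂)) ∧
    (∀ ν : Measure Pl, MB p ν → MB p ((2 : ℝ≥0∞) • ν)) ∧ MB p 0

/-- FING (about 150 lines).  `arclength Ω ≤ ν` (finite).  For `f ∈ L^p` let `f₀` be a measurable representative, `h = ‖f₀‖ₑ`; for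
a.e. `x` and all `k`, `f (x - 2^k y) = f₀ (x - 2^k y)` for `arclength`-a.e. `y` (Fubini), so
`ofReal |avg Ω k f x| ≤ ∫⁻ h (x - 2^k y) d(arclength) ≤ ∫⁻ h (x - 2^k y) dν`.  See the end of the proof of TC
(`Pool/Agent/Helper79/LM/M_TC.lean`).  Hypotheses: none. -/
def StFING : Prop :=
  ∀ (Ω : Set Pl) (p : ℝ) (ν : Measure Pl), 1 < p → MB p ν →
    (∀ B : Set Pl, MeasurableSet B → (μH[1] : Measure Pl) (frontier Ω ∩ B) ≤ ν B) → LpBounded Ω p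

/-- LOC (about 250 lines).  Curved point: `ν = 2 • arcMeasure a b G` (DOM, MBA).  Flat point `P = y`: for each of the two sides take
`m₀, τ` from TAU, `∑ τ^p < ∞` by CAPT, so `arcMeasure 0 (τ 0) γ` is `MB` (SIDM); the arc on `[τ 0, c]` has `φ'' ≥ φ''(τ 0) > 0` (MBA).
DOM applies to both (`IsArc 0 (τ 0) 0 γ`: lower curvature bound `0` is allowed), so
`μH[1] (γ '' Ioo 0 c ∩ B) ≤ 2 arcMeasure 0 (τ 0) γ B + 2 arcMeasure (τ 0) c γ B`; `μH[1] {P} = 0`.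
Hypotheses: hSIDM, hMBA, hTAU, hCAPT (DOM is a theorem). -/
def StLOC : Prop :=
  ∀ (Ω : Set Pl) (p : ℝ), IsOpen Ω → Convex ℝ Ω → Bornology.IsBounded Ω → (0 : Pl) ∈ Ω → 1 < p →
    ConditionG Ω p → ∀ y ∈ frontier Ω, (CurvedAt (frontier Ω) y ∨ FlatAt (frontier Ω) y) →
    ∃ U ∈ 𝓝 y, ∃ ν : Measure Pl, MB p ν ∧
      ∀ B : Set Pl, MeasurableSet B → (μH[1] : Measure Pl) (frontier Ω ∩ U ∩ B) ≤ ν B

/-- THC (about 100 lines).  `frontier Ω` is compact; finitely many `U_i` from LOC cover it; `ν = ∑ ν_i` is `MB` (MBA, induction) and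
dominates; FING.  Hypotheses: hMBA, hFING, hLOC. -/
def StTHC : Prop :=
  ∀ (Ω : Set Pl) (p : ℝ), IsOpen Ω → Convex ℝ Ω → Bornology.IsBounded Ω → (0 : Pl) ∈ Ω →
    (∀ y ∈ frontier Ω, CurvedAt (frontier Ω) y ∨ FlatAt (frontier Ω) y) → 1 < p →
    ConditionG Ω p → LpBounded Ω p

end Pool.Agent.Helper68.LM2
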